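import Pool.Agent.X271.Conduct
import Pool.Agent.X271.ConductPoly

/-!
# The conductor of `(I, f)` need not be contained in `(C(I), f)`

`R = k[x,y,u,v]/(xu, yv, u², uv, v²)`, `I = (u,v)`, `f = x - y`: then `I^j : f = I^j` for all
`j ≥ 0`, and `x ∈ C((I,f))` but `x ∉ (C(I), f)`.
-/

namespace Pool.Agent.Results.MP_72f8f6_ag.ConductorNotContained

open Pool.Agent.X271.Conduct

universe w

theorem result :
    (∀ (k : Type w) [Field k], ∃ (R : Type w) (_ : CommRing R) (u v f x : R),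
      IsNoetherianRing R ∧
      (∀ j : ℕ, Submodule.colon (Ideal.span {u, v} ^ j) {f} = Ideal.span {u, v} ^ j) ∧
      x ∈ conductor ![u, v, f] ∧ x ∉ conductor ![u, v] ⊔ Ideal.span {f}) := by
  intro k _
  obtain ⟨h0, h1, h2, h3⟩ := poly_facts k
  refine ⟨Ex (Polynomial.X : Polynomial (Polynomial k)) (Polynomial.C Polynomial.X), inferInstance,
    uu _ _, vv _ _, TrivSqZeroExt.inl (Polynomial.X - Polynomial.C Polynomial.X),
    TrivSqZeroExt.inl Polynomial.X, inferInstance, f_regular_powers h0 h1 h2,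
    x_mem_conductor h0 h1 h2, ?_⟩
  intro h
  obtain ⟨r, hr, z, hz, hrz⟩ := Submodule.mem_sup.1 h
  obtain ⟨c, rfl⟩ := Ideal.mem_span_singleton'.1 hz
  have h4 := congrArg TrivSqZeroExt.fst hrz
  rw [TrivSqZeroExt.fst_add, TrivSqZeroExt.fst_mul, TrivSqZeroExt.fst_inl,
    TrivSqZeroExt.fst_inl] at h4
  obtain ⟨h5, h6⟩ := conductor_fst hr
  exact h3 _ _ h5 h6 h4.symm

end Pool.Agent.Results.MP_72f8f6_ag.ConductorNotContained
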